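import Pool.Agent.H37.CTT.Stmts

/-!
# Row SC14 of board ctt: the conductor of the cover (II) of `Sp_4(q)`
-/

set_option autoImplicit false

namespace Pool.CND

open Finset Polynomial Matrix

theorem sc14_thm (hSC2 : S_SC2) (hSC6 : S_SC6) (hSC13 : S_SC13) (hSG2 : S_SG2) : S_SC14 := by
  intro p k F _ _ _ _ f q hp hp2 hcp hf hq hF
  have hq2 : 2 ≤ q := by
    rw [hq]
    exact le_trans hp.two_le (Nat.le_self_pow (by omega) p)
  have : Finite F := Nat.finite_of_card_ne_zero (by omega)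
  obtain ⟨L, iL, iA, t, X, G₀, ρ, P, hR, hC, hle, hO⟩ := hSC2 p k F f q hp hp2 hcp hf hq hF
  have hirr := hSC6 p k F L f q t X G₀ ρ P hp hp2 hcp hf hq hF hR hC hO
  obtain ⟨hall, hcond⟩ := hSC13 p k F L f q t X G₀ ρ P hp hp2 hcp hf hq hF hR hC hle hO
  have hG : G₀ = Sp4 F := hSG2 F G₀ hle hirr hall
  subst hG
  exact ⟨L, iL, iA, ρ, t, hC.cov, P, hO.neg, hcond⟩

end Pool.CND
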