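import Pool.Agent.H37.CTT.Stmts
import Pool.Agent.H17.CND.LON
import Pool.Agent.H17.CND.ZPW
import Pool.Agent.H88.CND.EXP

/-!
# Row SC4 of the board `ctt`: the shape of the elements of the wild inertia group (II)
-/

set_option autoImplicit false

namespace Pool.CND

open Finset Polynomial Matrix

theorem sc4_thm (_hWLD : S_WLD) : S_SC4 := by
  intro p k F L _ _ _ _ _ _ f q t a b X G₀ ρ P hp _hp2 hchar hf hq hF hR hC hO w hw
  have hq2 : 2 ≤ q := by
    rw [hq]
    exact le_trans hp.two_le (Nat.le_self_pow (by omega) p)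
  have hqz : (2 : ℤ) ≤ (q : ℤ) := by exact_mod_cast hq2
  have hXne : ∀ i, X i ≠ 0 := by
    intro i h
    have h1 := hR.ind (fun j => if j = i then 1 else 0) (by
      rw [Finset.sum_eq_single i]
      · rw [h, mul_zero]
      · intro j _ hj
        simp [cst, hj]
      · intro h2
        exact absurd (mem_univ i) h2)
    have h2 := congrFun h1 i
    simp at h2
  -- strict increase
  have hbig : ∀ x : L, x ≠ 0 → P.Ge (ρ w x - x) (P.ord x + 1) := by
    intro x hx
    obtain ⟨hfix, hram⟩ := hw
    have h3 : P.Ge (ρ w P.pi - P.pi) ((1 : ℤ) + 1) := by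
      rcases hram P.pi P.pi_ne P.ord_pi with h | h
      · exact Or.inl (sub_eq_zero.2 h)
      · right
        simpa using h
    rcases lon_thm exp_thm zpw_thm k L P (ρ w) P.pi 1 hfix P.pi_ne P.ord_pi (by norm_num) h3 x
      with h | h
    · exact h
    · exact absurd h hx
  -- the difference
  have hdiff : ∀ i, ρ w (X i) - X i =
      ∑ j, cst k F L (w.1.1 j i - if j = i then 1 else 0) * X j := by
    intro i
    rw [hC.act w i]
    have h1 : ∀ j, cst k F L (w.1.1 j i - if j = i then 1 else 0) * X j =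
        cst k F L (w.1.1 j i) * X j - (if j = i then X j else 0) := by
      intro j
      split_ifs <;> simp [cst] <;> ring
    rw [sum_congr rfl fun j _ => h1 j, sum_sub_distrib, sum_ite_eq' univ i X]
    simp
  have hneg := hO.neg
  have hq1 : (0 : ℤ) < (q : ℤ) - 1 := by linarith
  have hT : (0 : ℤ) < (q : ℤ) ^ 2 * ((q : ℤ) - 1) := by positivity
  have hM : (0 : ℤ) < (q : ℤ) * ((q : ℤ) + 1) := by positivity
  have hsingle : ∀ i : Fin 4,
      (∑ j, cst k F L ((fun j => if j = i then (1 : F) else 0) j) * X j) = X i := by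
    intro i
    rw [Finset.sum_eq_single i]
    · simp [cst]
    · intro j _ hj
      simp [cst, hj]
    · intro h2
      exact absurd (mem_univ i) h2
  have hX0 : 0 ≤ P.ord (X 0) := by
    by_contra hcon
    rw [not_le] at hcon
    have h1 : ((q : ℤ) - 1) * P.ord (X 0) < 0 := mul_neg_of_pos_of_neg hq1 hcon
    have h2 := hO.small
    linarith
  have hX1 : (q : ℤ) * ((q : ℤ) + 1) * P.ord (X 1) = -P.ord t := by
    have h1 := hO.mid (fun j => if j = 1 then 1 else 0) (if_neg (by decide)) (Or.inl (by simp))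
    rwa [hsingle 1] at h1
  have hX2 : (q : ℤ) * ((q : ℤ) + 1) * P.ord (X 2) = -P.ord t := by
    have h1 := hO.mid (fun j => if j = 2 then 1 else 0) (if_neg (by decide)) (Or.inr (by simp))
    rwa [hsingle 2] at h1
  have hX3 : (q : ℤ) ^ 2 * ((q : ℤ) - 1) * P.ord (X 3) = P.ord t := by
    have h1 := hO.top (fun j => if j = 3 then 1 else 0) (by simp)
    rwa [hsingle 3] at h1
  have hX0' : -P.ord t ≤ (q : ℤ) * ((q : ℤ) + 1) * P.ord (X 0) := by
    have h1 := hO.small
    have h2 : 0 ≤ ((q : ℤ) ^ 2 + 1) * P.ord (X 0) := mul_nonneg (by positivity) hX0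
    nlinarith
  have hmidlow : ∀ j : Fin 4, j ≠ 3 → -P.ord t ≤ (q : ℤ) * ((q : ℤ) + 1) * P.ord (X j) := by
    intro j hj
    fin_cases j
    · exact hX0'
    · exact hX1.ge
    · exact hX2.ge
    · exact absurd rfl hj
  have hlow : ∀ j : Fin 4, P.ord t ≤ (q : ℤ) ^ 2 * ((q : ℤ) - 1) * P.ord (X j) := by
    intro j
    by_cases hj : j = 3
    · rw [hj, hX3]
    · have h1 := hmidlow j hj
      have h2 : 0 ≤ P.ord (X j) := by
        by_contra hcon
        rw [not_le] at hcon
        have h3 := mul_neg_of_pos_of_neg hM hcon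
        linarith
      have h3 := mul_nonneg hT.le h2
      linarith
  -- the last row
  have hc : ∀ j, w.1.1 3 j = if (3 : Fin 4) = j then 1 else 0 := by
    intro j
    by_contra hne
    have hne' : w.1.1 3 j - (if (3 : Fin 4) = j then 1 else 0) ≠ 0 := sub_ne_zero.2 hne
    have h1 := hO.top (fun l => w.1.1 l j - if l = j then 1 else 0) hne'
    have h2 := hbig (X j) (hXne j)
    rw [hdiff j] at h2
    rcases h2 with h2 | h2
    · exact hne' (congrFun (hR.ind (fun l => w.1.1 l j - if l = j then 1 else 0) h2) _)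
    · have h3 := hlow j
      have h4 : (q : ℤ) ^ 2 * ((q : ℤ) - 1) * (P.ord (X j) + 1) ≤
          (q : ℤ) ^ 2 * ((q : ℤ) - 1) *
            P.ord (∑ l, cst k F L (w.1.1 l j - if l = j then 1 else 0) * X l) :=
        mul_le_mul_of_nonneg_left h2 hT.le
      have h5 : (q : ℤ) ^ 2 * ((q : ℤ) - 1) *
            P.ord (∑ l, cst k F L (w.1.1 l j - if l = j then 1 else 0) * X l) = P.ord t := h1
      rw [h5] at h4
      linarith
  have hb : ∀ i j, i ≠ 0 → j ≠ 3 → w.1.1 i j = if i = j then 1 else 0 := by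
    intro i j hi hj
    by_cases hir : i = 3
    · rw [hir]
      exact hc j
    by_contra hne
    have hne' : w.1.1 i j - (if i = j then 1 else 0) ≠ 0 := sub_ne_zero.2 hne
    have h12 : (fun l => w.1.1 l j - if l = j then (1 : F) else 0) 1 ≠ 0 ∨
        (fun l => w.1.1 l j - if l = j then (1 : F) else 0) 2 ≠ 0 := by
      have h6 : i = 1 ∨ i = 2 := by omega
      rcases h6 with h6 | h6
      · left
        rw [h6] at hne'
        exact hne'
      · right
        rw [h6] at hne'
        exact hne'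
    have h1 := hO.mid (fun l => w.1.1 l j - if l = j then 1 else 0)
      (by rw [hc j, sub_self]) h12
    have h2 := hbig (X j) (hXne j)
    rw [hdiff j] at h2
    rcases h2 with h2 | h2
    · exact hne' (congrFun (hR.ind (fun l => w.1.1 l j - if l = j then 1 else 0) h2) i)
    · have h3 := hmidlow j hj
      have h4 : (q : ℤ) * ((q : ℤ) + 1) *
          P.ord (∑ l, cst k F L (w.1.1 l j - if l = j then 1 else 0) * X l) = -P.ord t := h1
      have h5 : (q : ℤ) * ((q : ℤ) + 1) * (P.ord (X j) + 1) ≤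
          (q : ℤ) * ((q : ℤ) + 1) *
            P.ord (∑ l, cst k F L (w.1.1 l j - if l = j then 1 else 0) * X l) :=
        mul_le_mul_of_nonneg_left h2 hM.le
      rw [h4] at h5
      linarith
  refine ⟨?_, hb, by rw [hc 3, if_pos rfl]⟩
  by_contra hne
  have hne' : w.1.1 0 0 - 1 ≠ 0 := sub_ne_zero.2 hne
  have h2 := hbig (X 0) (hXne 0)
  have h3 : (∑ l, cst k F L (w.1.1 l 0 - if l = 0 then 1 else 0) * X l) =
      cst k F L (w.1.1 0 0 - 1) * X 0 := by
    rw [Finset.sum_eq_single 0]
    · simp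
    · intro l _ hl
      rw [hb l 0 hl (by decide), sub_self]
      simp [cst]
    · intro h
      exact absurd (mem_univ _) h
  rw [hdiff 0, h3] at h2
  have hk : algebraMap F k (w.1.1 0 0 - 1) ≠ 0 := by
    rw [Ne, map_eq_zero]
    exact hne'
  have hL : cst k F L (w.1.1 0 0 - 1) ≠ 0 := by
    show algebraMap k L (algebraMap F k (w.1.1 0 0 - 1)) ≠ 0
    rw [Ne, map_eq_zero]
    exact hk
  rcases h2 with h2 | h2
  · rcases mul_eq_zero.1 h2 with h4 | h4
    · exact hL h4
    · exact hXne 0 h4
  · rw [P.ord_mul _ _ hL (hXne 0), show P.ord (cst k F L (w.1.1 0 0 - 1)) = 0 from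
      P.ord_const _ hk] at h2
    linarith

end Pool.CND
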