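import Pool.Agent.H37.CTT.Stmts

/-!
# Row SHC of board ctt: the quotients of `Sp_4(q)`, `q` odd, are groups of covers
-/

set_option autoImplicit false

namespace Pool.CND

open Finset Polynomial Matrix

theorem shc_emb (p : ℕ) (k F : Type) [Field k] [IsAlgClosed k] [Field F] (f q : ℕ)
    (hp : p.Prime) (hcp : CharP k p) (hf : 1 ≤ f) (hq : q = p ^ f) (hF : Nat.card F = q) :
    Finite F ∧ Nonempty (F →+* k) := by
  have hq2 : 2 ≤ q := by
    rw [hq]
    exact le_trans hp.two_le (Nat.le_self_pow (by omega) p)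
  have i1 : Finite F := Nat.finite_of_card_ne_zero (by omega)
  have i2 : Fintype F := Fintype.ofFinite F
  have i3 : Fact p.Prime := ⟨hp⟩
  obtain ⟨r, hr⟩ := CharP.exists F
  obtain ⟨n, hrp, hn⟩ := FiniteField.card F r
  have hrp2 : r = p := by
    rw [← Nat.card_eq_fintype_card, hF, hq] at hn
    have h1 : r ∣ p ^ f := by
      rw [hn]
      exact dvd_pow_self r n.ne_zero
    exact (Nat.prime_dvd_prime_iff_eq hrp hp).1 (hrp.dvd_of_dvd_pow h1)
  have i4 : CharP F p := by rw [← hrp2]; exact hr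
  let _ : Algebra (ZMod p) F := ZMod.algebra F p
  let _ : Algebra (ZMod p) k := ZMod.algebra k p
  exact ⟨i1, ⟨(IsAlgClosed.lift (R := ZMod p) (S := F) (M := k)).toRingHom⟩⟩

theorem shc_thm (hSC11 : S_SC11) (hQU1 : S_QU1) : S_SHC := by
  intro p k F _ _ _ f q hp hp2 hcp hf hq hF C _ _
  obtain ⟨i1, ⟨φ⟩⟩ := shc_emb p k F f q hp hcp hf hq hF
  let _ : Algebra F k := φ.toAlgebra
  have i2 : Finite (Matrix.SpecialLinearGroup (Fin 4) F) :=
    inferInstanceAs (Finite {A : Matrix (Fin 4) (Fin 4) F // A.det = 1})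
  have i3 : Finite (Sp4 F) := inferInstance
  obtain ⟨L, _, _, ρ, t, hcov, _⟩ := hSC11 p k F f q hp hp2 hcp hf hq hF
  obtain ⟨E, ρ', t', _, _, _, h⟩ := hQU1 k L (Sp4 F) ρ t C hcov
  exact ⟨E, inferInstance, inferInstance, ρ', t', h⟩

end Pool.CND
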